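import Pool.Agent.H93.TN.TargetsA
import Pool.Agent.H27.LS.Chi
import Pool.Agent.H83.LS.Basic

/-!
# Module FL2 of the board tn_modules

Flat decoupling in `L²`; it is the dual of the almost orthogonality `T_ORT` of the bands.
-/

set_option autoImplicit false

namespace Pool.Agent.H85.TN

open MeasureTheory Set FourierTransform Pool.Agent.H93.TN Pool.Agent.H83.LS Pool.Agent.H93.AR
open Pool.Agent.H54.LS Pool.Agent.H14.LS Pool.Agent.H83.AR Pool.Agent.H84.BR Pool.Agent.H84.B2
open scoped ENNReal NNReal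

lemma f2_rc : RC ch2 := by
  have h0 := H27.contDiff_eta0
  refine ⟨?_, fun s hs => ?_⟩
  · unfold ch2
    exact (h0.comp (contDiff_id.div_const 4)).sub (h0.comp (contDiff_const.mul contDiff_id))
  · by_contra hcon
    apply hs
    unfold ch2
    rcases lt_or_ge s (1 / 8) with h | h
    · rw [H27.eta0_one (by linarith), H27.eta0_one (by linarith),
        sub_self]
    · have h8 : 8 < s := by
        by_contra h8
        exact hcon ⟨h, not_lt.1 h8⟩
      rw [H27.eta0_zero (by linarith), H27.eta0_zero (by linarith),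
        sub_self]

/-- The kernel of the band is jointly measurable. -/
lemma f2_kmeas (n : ℕ) (Lam r : ℝ) :
    Measurable fun p : Sp n × EE n => MK (sy n ch2 Lam r (p.1 : EE n)) p.2 := by
  have he : Measurable eta0 := H27.contDiff_eta0.continuous.measurable
  have hc : Measurable ch2 := f2_rc.1.continuous.measurable
  have h1 : Measurable fun q : (Sp n × EE n) × EE n =>
      e (inner ℝ q.1.2 q.2) * sy n ch2 Lam r (q.1.1 : EE n) q.2 := by
    refine Measurable.mul ?_ ?_
    · exact measurable_e.comp ((measurable_snd.comp measurable_fst).inner measurable_snd)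
    · unfold sy
      refine Complex.measurable_ofReal.comp (Measurable.mul ?_ ?_)
      · exact hc.comp (measurable_snd.norm.div_const _)
      · refine he.comp (Measurable.pow_const (Measurable.div_const (Measurable.norm ?_) _) _)
        exact (measurable_snd.norm.inv.smul measurable_snd).sub
          (measurable_subtype_coe.comp (measurable_fst.comp measurable_fst))
  exact (h1.stronglyMeasurable.integral_prod_right (ν := volume)).measurable

/-- The kernel at `-x`. -/
lemma f2_kneg (n : ℕ) (Lam r : ℝ) (u x : EE n) :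
    MK (sy n ch2 Lam r u) (-x) = (starRingEnd ℂ) (MK (sy n ch2 Lam r u) x) := by
  unfold MK
  rw [← integral_conj]
  refine integral_congr_ae (Filter.Eventually.of_forall fun ξ => ?_)
  simp only
  rw [map_mul, conj_e, inner_neg_left]
  congr 1
  unfold sy
  rw [Complex.conj_ofReal]

lemma f2_int (n : ℕ) (Lam r : ℝ) {C : ℝ} (u : Sp n)
    (hC : ∫⁻ x, ‖MK (sy n ch2 Lam r (u : EE n)) x‖ₑ ≤ ENNReal.ofReal C) :
    Integrable (MK (sy n ch2 Lam r (u : EE n))) := by
  refine ⟨?_, hC.trans_lt ENNReal.ofReal_lt_top⟩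
  exact ((f2_kmeas n Lam r).comp (measurable_const.prodMk measurable_id)).aestronglyMeasurable

theorem pf_fl2 (hORT : T_ORT) (hSEL : T_SEL) : T_FL2 := by
  intro n hn
  obtain ⟨C, hC⟩ := hORT n hn
  obtain ⟨C₁, hC₁0, hC₁⟩ := hSEL n 0 ch2 hn f2_rc
  refine ⟨C, ?_⟩
  intro Lam r A B G hLam hr hr8 hB hG hGA
  -- the kernel
  set K : Sp n × EE n → ℂ := fun p => MK (sy n ch2 Lam r (p.1 : EE n)) p.2 with hK
  have hKm : Measurable K := f2_kmeas n Lam r
  have hKL : ∀ u : Sp n, ∫⁻ x, ‖K (u, x)‖ₑ ≤ ENNReal.ofReal C₁ := by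
    intro u
    have hu : ‖(u : EE n)‖ = 1 := by simp
    have h1 := (hC₁ Lam r (u : EE n) hLam hr hr8 hu).2.2.1
    simpa using h1
  have hA0 : ∀ (u : Sp n) (x : EE n), 0 ≤ A := fun u x => (norm_nonneg _).trans (hGA u x)
  -- the measure
  set ν : Measure (Sp n × EE n) := ((sg n).restrict B).prod volume with hν
  have hνs : SFinite ν := Measure.prod.instSFinite
  -- the integrand
  set Φ : EE n → Sp n × EE n → ℂ := fun x q => K (q.1, x - q.2) * G q.1 q.2 with hΦ
  have hΦm : Measurable (Function.uncurry Φ) := by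
    refine Measurable.mul ?_ ?_
    · exact hKm.comp ((measurable_fst.comp measurable_snd).prodMk
        (measurable_fst.sub (measurable_snd.comp measurable_snd)))
    · exact hG.comp measurable_snd
  have hΦL : ∀ x, ∫⁻ q, ‖Φ x q‖ₑ ∂ν ≤ ENNReal.ofReal C₁ * ENNReal.ofReal A * sg n B := by
    intro x
    have hm : Measurable fun q => ‖Φ x q‖ₑ :=
      (hΦm.comp (measurable_const.prodMk measurable_id)).enorm
    rw [hν, lintegral_prod _ hm.aemeasurable]
    calc ∫⁻ u, ∫⁻ y, ‖Φ x (u, y)‖ₑ ∂volume ∂((sg n).restrict B)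
        ≤ ∫⁻ u, ENNReal.ofReal C₁ * ENNReal.ofReal A ∂((sg n).restrict B) := by
          refine lintegral_mono fun u => ?_
          calc ∫⁻ y, ‖Φ x (u, y)‖ₑ ≤ ∫⁻ y, ‖K (u, x - y)‖ₑ * ENNReal.ofReal A := by
                refine lintegral_mono fun y => ?_
                simp only [hΦ]
                rw [enorm_mul]
                gcongr
                rw [← ofReal_norm]
                exact ENNReal.ofReal_le_ofReal (hGA u y)
            _ = (∫⁻ y, ‖K (u, x - y)‖ₑ) * ENNReal.ofReal A :=
                lintegral_mul_const' _ _ ENNReal.ofReal_ne_top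
            _ = (∫⁻ y, ‖K (u, y)‖ₑ) * ENNReal.ofReal A := by
                rw [lintegral_sub_left_eq_self (fun y => ‖K (u, y)‖ₑ) x]
            _ ≤ _ := by gcongr; exact hKL u
      _ = _ := by rw [lintegral_const, Measure.restrict_apply_univ]
  have hfin : ENNReal.ofReal C₁ * ENNReal.ofReal A * sg n B < ∞ :=
    ENNReal.mul_lt_top (ENNReal.mul_lt_top ENNReal.ofReal_lt_top ENNReal.ofReal_lt_top)
      (measure_lt_top _ _)
  have hΦi : ∀ x, Integrable (Φ x) ν := fun x =>
    ⟨(hΦm.comp (measurable_const.prodMk measurable_id)).aestronglyMeasurable,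
      (hΦL x).trans_lt hfin⟩
  set F : EE n → ℂ := fun x => ∫ u in B, Qb n Lam r (u : EE n) (G u) x ∂(sg n) with hF
  have hFe : ∀ x, F x = ∫ q, Φ x q ∂ν := by
    intro x
    rw [hν, integral_prod _ (hΦi x)]
    rfl
  have hFm : Measurable F := by
    have h1 : Measurable fun x => ∫ q, Φ x q ∂ν :=
      (hΦm.stronglyMeasurable.integral_prod_right (ν := ν)).measurable
    have h2 : F = fun x => ∫ q, Φ x q ∂ν := funext hFe
    rw [h2]
    exact h1
  set M : ℝ := (ENNReal.ofReal C₁ * ENNReal.ofReal A * sg n B).toReal with hM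
  have hFb : ∀ x, ‖F x‖ ≤ M := by
    intro x
    have h1 : ‖F x‖ₑ ≤ ENNReal.ofReal C₁ * ENNReal.ofReal A * sg n B := by
      rw [hFe]
      exact (enorm_integral_le_lintegral_enorm _).trans (hΦL x)
    have h2 := ENNReal.toReal_mono hfin.ne h1
    rwa [toReal_enorm] at h2
  have hM0 : 0 ≤ M := ENNReal.toReal_nonneg
  -- the right side
  set I : ℝ≥0∞ := ∫⁻ u in B, ∫⁻ x, ‖G u x‖ₑ ^ 2 ∂volume ∂(sg n) with hI
  have hIe : I = ∫⁻ q, ‖G q.1 q.2‖ₑ ^ 2 ∂ν := by
    have hm : Measurable fun q : Sp n × EE n => ‖G q.1 q.2‖ₑ ^ 2 := hG.enorm.pow_const 2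
    rw [hν, lintegral_prod _ hm.aemeasurable]
  -- the estimate over a ball
  have key : ∀ k : ℕ, ∫⁻ x in Metric.closedBall (0 : EE n) k, ‖F x‖ₑ ^ 2 ≤
      C * ENNReal.ofReal (r ^ (n - 1)) * I := by
    intro k
    set S : Set (EE n) := Metric.closedBall (0 : EE n) k with hS
    have hSm : MeasurableSet S := Metric.isClosed_closedBall.measurableSet
    have hSf : volume S < ∞ := (isCompact_closedBall _ _).measure_lt_top
    set h : EE n → ℂ := S.indicator F with hh
    have hhm : Measurable h := hFm.indicator hSm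
    have hhb : ∀ x, ‖h x‖ ≤ M := by
      intro x
      rw [hh, norm_indicator_eq_indicator_norm]
      by_cases hx : x ∈ S
      · rw [indicator_of_mem hx]
        exact hFb x
      · rw [indicator_of_notMem hx]
        exact hM0
    set a : ℝ≥0∞ := ∫⁻ x in S, ‖F x‖ₑ ^ 2 with ha
    have haf : a ≠ ∞ := by
      have h1 : a ≤ ∫⁻ _ in S, ENNReal.ofReal M ^ 2 := by
        refine lintegral_mono fun x => ?_
        gcongr
        rw [← ofReal_norm]
        exact ENNReal.ofReal_le_ofReal (hFb x)
      rw [lintegral_const, Measure.restrict_apply_univ] at h1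
      exact (h1.trans_lt (ENNReal.mul_lt_top (by simp) hSf)).ne
    have hae : a = ∫⁻ x, ‖h x‖ₑ ^ 2 := by
      rw [ha, ← lintegral_indicator hSm]
      refine lintegral_congr fun x => ?_
      by_cases hx : x ∈ S
      · rw [hh, indicator_of_mem hx, indicator_of_mem hx]
      · rw [hh, indicator_of_notMem hx, indicator_of_notMem hx]
        simp
    -- the band applied to `h`
    have hQm : Measurable fun q : Sp n × EE n => Qb n Lam r (q.1 : EE n) h q.2 := by
      have h1 : Measurable fun p : (Sp n × EE n) × EE n => K (p.1.1, p.1.2 - p.2) * h p.2 :=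
        (hKm.comp ((measurable_fst.comp measurable_fst).prodMk
          ((measurable_snd.comp measurable_fst).sub measurable_snd))).mul
          (hhm.comp measurable_snd)
      exact (h1.stronglyMeasurable.integral_prod_right (ν := volume)).measurable
    have hJ : ∫⁻ q, ‖Qb n Lam r (q.1 : EE n) h q.2‖ₑ ^ 2 ∂ν ≤
        C * ENNReal.ofReal (r ^ (n - 1)) * a := by
      rw [hν, lintegral_prod _ (Measurable.aemeasurable (hQm.enorm.pow_const 2)), hae]
      exact (lintegral_mono' Measure.restrict_le_self le_rfl).trans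
        (hC Lam r M h hLam hr hr8 hhm hhb)
    -- the square of the norm as an integral
    have hint1 : Integrable (Function.uncurry fun (x : EE n) (q : Sp n × EE n) =>
        Φ x q * (starRingEnd ℂ) (F x)) ((volume.restrict S).prod ν) := by
      have hm : Measurable (Function.uncurry fun (x : EE n) (q : Sp n × EE n) =>
          Φ x q * (starRingEnd ℂ) (F x)) :=
        hΦm.mul (Complex.continuous_conj.measurable.comp (hFm.comp measurable_fst))
      refine ⟨hm.aestronglyMeasurable, ?_⟩
      show ∫⁻ p, ‖(Function.uncurry fun (x : EE n) (q : Sp n × EE n) =>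
          Φ x q * (starRingEnd ℂ) (F x)) p‖ₑ ∂((volume.restrict S).prod ν) < ∞
      rw [lintegral_prod _ hm.enorm.aemeasurable]
      calc ∫⁻ x in S, ∫⁻ q, ‖Φ x q * (starRingEnd ℂ) (F x)‖ₑ ∂ν
          ≤ ∫⁻ _ in S, ENNReal.ofReal C₁ * ENNReal.ofReal A * sg n B * ENNReal.ofReal M := by
            refine lintegral_mono fun x => ?_
            calc ∫⁻ q, ‖Φ x q * (starRingEnd ℂ) (F x)‖ₑ ∂ν
                ≤ ∫⁻ q, ‖Φ x q‖ₑ * ENNReal.ofReal M ∂ν := by
                  refine lintegral_mono fun q => ?_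
                  rw [enorm_mul]
                  gcongr
                  rw [← ofReal_norm, RCLike.norm_conj]
                  exact ENNReal.ofReal_le_ofReal (hFb x)
              _ = (∫⁻ q, ‖Φ x q‖ₑ ∂ν) * ENNReal.ofReal M :=
                  lintegral_mul_const' _ _ ENNReal.ofReal_ne_top
              _ ≤ _ := by gcongr; exact hΦL x
        _ < ∞ := by
            rw [lintegral_const, Measure.restrict_apply_univ]
            exact ENNReal.mul_lt_top (ENNReal.mul_lt_top hfin ENNReal.ofReal_lt_top) hSf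
    have hsq : ((a.toReal : ℝ) : ℂ) =
        ∫ q, G q.1 q.2 * (starRingEnd ℂ) (Qb n Lam r (q.1 : EE n) h q.2) ∂ν := by
      have e1 : ((a.toReal : ℝ) : ℂ) = ∫ x in S, ∫ q, Φ x q * (starRingEnd ℂ) (F x) ∂ν := by
        have e2 : ∀ x, ∫ q, Φ x q * (starRingEnd ℂ) (F x) ∂ν = ((‖F x‖ ^ 2 : ℝ) : ℂ) := by
          intro x
          rw [integral_mul_const, ← hFe, Complex.mul_conj, Complex.normSq_eq_norm_sq]
        simp_rw [e2]
        rw [integral_complex_ofReal]
        congr 1
        rw [integral_eq_lintegral_of_nonneg_ae (Filter.Eventually.of_forall fun x => sq_nonneg _)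
          (hFm.norm.pow_const 2).aestronglyMeasurable, ha]
        congr 1
        refine lintegral_congr fun x => ?_
        rw [← ofReal_norm, ENNReal.ofReal_pow (norm_nonneg _)]
      rw [e1, integral_integral_swap hint1]
      refine integral_congr_ae (Filter.Eventually.of_forall fun q => ?_)
      simp only
      have e3 : ∀ x, Φ x q * (starRingEnd ℂ) (F x) =
          G q.1 q.2 * (starRingEnd ℂ) (K (q.1, q.2 - x) * F x) := by
        intro x
        have e4 : K (q.1, x - q.2) = (starRingEnd ℂ) (K (q.1, q.2 - x)) := by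
          have := f2_kneg n Lam r (q.1 : EE n) (q.2 - x)
          rw [neg_sub] at this
          exact this
        simp only [hΦ]
        rw [e4, map_mul]
        ring
      simp_rw [e3]
      rw [integral_const_mul, integral_conj]
      congr 2
      rw [← integral_indicator hSm]
      show _ = ∫ y, K (q.1, q.2 - y) * h y
      refine integral_congr_ae (Filter.Eventually.of_forall fun x => ?_)
      simp only [hh]
      by_cases hx : x ∈ S
      · rw [indicator_of_mem hx, indicator_of_mem hx]
      · rw [indicator_of_notMem hx, indicator_of_notMem hx, mul_zero]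
    -- Cauchy-Schwarz
    have hcs : a ≤ I ^ (1 / 2 : ℝ) * (C * ENNReal.ofReal (r ^ (n - 1)) * a) ^ (1 / 2 : ℝ) := by
      have h1 : a = ‖((a.toReal : ℝ) : ℂ)‖ₑ := by
        rw [← ofReal_norm, Complex.norm_real, Real.norm_of_nonneg ENNReal.toReal_nonneg,
          ENNReal.ofReal_toReal haf]
      calc a = ‖((a.toReal : ℝ) : ℂ)‖ₑ := h1
        _ ≤ ∫⁻ q, ‖G q.1 q.2 * (starRingEnd ℂ) (Qb n Lam r (q.1 : EE n) h q.2)‖ₑ ∂ν := by
            rw [hsq]
            exact enorm_integral_le_lintegral_enorm _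
        _ = ∫⁻ q, ((fun q : Sp n × EE n => ‖G q.1 q.2‖ₑ) *
              fun q : Sp n × EE n => ‖Qb n Lam r (q.1 : EE n) h q.2‖ₑ) q ∂ν := by
            refine lintegral_congr fun q => ?_
            rw [enorm_mul, Pi.mul_apply]
            congr 1
            rw [← ofReal_norm, RCLike.norm_conj, ofReal_norm]
        _ ≤ (∫⁻ q, ‖G q.1 q.2‖ₑ ^ (2 : ℝ) ∂ν) ^ (1 / 2 : ℝ) *
            (∫⁻ q, ‖Qb n Lam r (q.1 : EE n) h q.2‖ₑ ^ (2 : ℝ) ∂ν) ^ (1 / 2 : ℝ) :=
            ENNReal.lintegral_mul_le_Lp_mul_Lq ν Real.HolderConjugate.two_two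
              (Measurable.aemeasurable hG.enorm) hQm.enorm.aemeasurable
        _ ≤ I ^ (1 / 2 : ℝ) * (C * ENNReal.ofReal (r ^ (n - 1)) * a) ^ (1 / 2 : ℝ) := by
            simp only [ENNReal.rpow_two]
            rw [← hIe]
            gcongr
    rcases eq_or_ne a 0 with h0 | h0
    · rw [h0]
      exact bot_le
    · have h1 : a * a ≤ (C * ENNReal.ofReal (r ^ (n - 1)) * I) * a := by
        calc a * a ≤ (I ^ (1 / 2 : ℝ) * (C * ENNReal.ofReal (r ^ (n - 1)) * a) ^ (1 / 2 : ℝ)) *
              (I ^ (1 / 2 : ℝ) * (C * ENNReal.ofReal (r ^ (n - 1)) * a) ^ (1 / 2 : ℝ)) := by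
              gcongr
          _ = (I ^ (1 / 2 : ℝ) * I ^ (1 / 2 : ℝ)) *
              ((C * ENNReal.ofReal (r ^ (n - 1)) * a) ^ (1 / 2 : ℝ) *
                (C * ENNReal.ofReal (r ^ (n - 1)) * a) ^ (1 / 2 : ℝ)) := by ring
          _ = I * (C * ENNReal.ofReal (r ^ (n - 1)) * a) := by
              have hs : ∀ t : ℝ≥0∞, t ^ (1 / 2 : ℝ) * t ^ (1 / 2 : ℝ) = t := by
                intro t
                rw [← ENNReal.rpow_add_of_nonneg _ _ (by norm_num) (by norm_num)]
                norm_num
              rw [hs, hs]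
          _ = _ := by ring
      exact (ENNReal.mul_le_mul_iff_left h0 haf).1 h1
  -- monotone convergence
  have hU : (⋃ k : ℕ, Metric.closedBall (0 : EE n) k) = univ := by
    rw [eq_univ_iff_forall]
    intro x
    obtain ⟨k, hk⟩ := exists_nat_ge ‖x‖
    exact mem_iUnion.2 ⟨k, by simpa using hk⟩
  have hdir : Directed (· ⊆ ·) fun k : ℕ => Metric.closedBall (0 : EE n) (k : ℝ) :=
    (monotone_nat_of_le_succ fun k => Metric.closedBall_subset_closedBall (by
      push_cast
      linarith)).directed_le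
  calc ∫⁻ x, ‖F x‖ₑ ^ 2 = ∫⁻ x in ⋃ k : ℕ, Metric.closedBall (0 : EE n) k, ‖F x‖ₑ ^ 2 := by
        rw [hU, Measure.restrict_univ]
    _ = ⨆ k : ℕ, ∫⁻ x in Metric.closedBall (0 : EE n) k, ‖F x‖ₑ ^ 2 :=
        setLIntegral_iUnion_of_directed _ hdir
    _ ≤ _ := iSup_le key

end Pool.Agent.H85.TN
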