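import Pool.Agent.H93.TN.TargetsB
import Pool.Agent.H71.BR.JM

/-!
# Module SP2 of the board tn_modules

Coordinates of `ℝ^(a+1) × ℝ^(b+1)` adapted to two unit vectors `u`, `w`.
-/

set_option autoImplicit false

namespace Pool.Agent.H85.TN

open MeasureTheory Set FourierTransform Pool.Agent.H93.TN Pool.Agent.H83.LS Pool.Agent.H93.AR
open Pool.Agent.H54.LS Pool.Agent.H14.LS Pool.Agent.H83.AR Pool.Agent.H84.BR Pool.Agent.H84.B2
open Pool.Agent.H71.BR
open scoped ENNReal NNReal

/-- `jm` as a measurable equivalence. -/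
noncomputable def jmE (a b : ℕ) : EE a × EE b ≃ᵐ EE (a + b) where
  toFun q := jm a b q.1 q.2
  invFun x := (p1 a b x, p2 a b x)
  left_inv q := Prod.ext (p1_jm a b q.1 q.2) (p2_jm a b q.1 q.2)
  right_inv x := jm_p a b x
  measurable_toFun := (cont_jm a b).measurable
  measurable_invFun := ((cont_p1 a b).prodMk (cont_p2 a b)).measurable

/-- `jo` as a measurable equivalence. -/
noncomputable def joE (n : ℕ) : EE n × ℝ ≃ᵐ EE (n + 1) where
  toFun q := jo q.1 q.2
  invFun x := (pr x, x (Fin.last n))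
  left_inv q := Prod.ext (pr_jo q.1 q.2) (jo_last q.1 q.2)
  right_inv x := jo_pr x
  measurable_toFun := continuous_jo.measurable
  measurable_invFun := (continuous_pr.prodMk (by fun_prop)).measurable

/-- Exchange of the middle factors. -/
def pmE (A B C D : Type) [MeasurableSpace A] [MeasurableSpace B] [MeasurableSpace C]
    [MeasurableSpace D] : (A × B) × (C × D) ≃ᵐ (A × C) × (B × D) where
  toFun q := ((q.1.1, q.2.1), (q.1.2, q.2.2))
  invFun q := ((q.1.1, q.2.1), (q.1.2, q.2.2))
  left_inv _ := rfl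
  right_inv _ := rfl
  measurable_toFun := by
    show Measurable fun q : (A × B) × (C × D) => ((q.1.1, q.2.1), (q.1.2, q.2.2))
    fun_prop
  measurable_invFun := by
    show Measurable fun q : (A × C) × (B × D) => ((q.1.1, q.2.1), (q.1.2, q.2.2))
    fun_prop

lemma mp_pmE (A B C D : Type) [MeasureSpace A] [MeasureSpace B] [MeasureSpace C]
    [MeasureSpace D] [SFinite (volume : Measure A)] [SFinite (volume : Measure B)]
    [SFinite (volume : Measure C)] [SFinite (volume : Measure D)] :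
    MeasurePreserving (pmE A B C D) volume volume := by
  have m1 : MeasurePreserving (MeasurableEquiv.prodAssoc : (A × B) × (C × D) ≃ᵐ A × B × (C × D))
      volume volume := volume_preserving_prodAssoc
  have m2 : MeasurePreserving (MeasurableEquiv.prodAssoc : (B × C) × D ≃ᵐ B × C × D).symm
      volume volume := volume_preserving_prodAssoc.symm
  have m3 : MeasurePreserving (Prod.map (Prod.swap : B × C → C × B) (id : D → D))
      ((volume.prod volume).prod volume) ((volume.prod volume).prod volume) :=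
    Measure.measurePreserving_swap.prod (MeasurePreserving.id volume)
  have m4 : MeasurePreserving (MeasurableEquiv.prodAssoc : (C × B) × D ≃ᵐ C × B × D)
      volume volume := volume_preserving_prodAssoc
  have m5 : MeasurePreserving (Prod.map (id : A → A)
      ((MeasurableEquiv.prodAssoc : (C × B) × D ≃ᵐ C × B × D) ∘
        (Prod.map (Prod.swap : B × C → C × B) (id : D → D)) ∘
        (MeasurableEquiv.prodAssoc : (B × C) × D ≃ᵐ B × C × D).symm))
      ((volume : Measure A).prod (volume : Measure (B × C × D)))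
      ((volume : Measure A).prod (volume : Measure (C × B × D))) :=
    (MeasurePreserving.id volume).prod (m4.comp (m3.comp m2))
  have m6 : MeasurePreserving (MeasurableEquiv.prodAssoc : (A × C) × (B × D) ≃ᵐ A × C × B × D).symm
      volume volume := volume_preserving_prodAssoc.symm
  exact m6.comp (m5.comp m1)

lemma exists_isom {n : ℕ} (e u : EE n) (he : ‖e‖ = 1) (hu : ‖u‖ = 1) :
    ∃ Q : EE n ≃ₗᵢ[ℝ] EE n, Q e = u :=
  ⟨Submodule.reflection (Submodule.span ℝ {e - u})ᗮ, Submodule.reflection_sub (he.trans hu.symm)⟩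

lemma jo_add {n : ℕ} (z : EE n) (s : ℝ) : jo z s = jo z 0 + s • jo (0 : EE n) 1 := by
  ext i
  refine Fin.lastCases ?_ (fun j => ?_) i
  · rw [PiLp.add_apply, PiLp.smul_apply, jo_last, jo_last, jo_last]
    simp
  · rw [PiLp.add_apply, PiLp.smul_apply, jo_castSucc, jo_castSucc, jo_castSucc]
    simp

lemma jm_add (a b : ℕ) (x x' : EE a) (z z' : EE b) :
    jm a b (x + x') (z + z') = jm a b x z + jm a b x' z' := by
  ext i
  refine Fin.addCases (fun j => ?_) (fun j => ?_) i
  · rw [PiLp.add_apply, jm_left, jm_left, jm_left, PiLp.add_apply]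
  · rw [PiLp.add_apply, jm_right, jm_right, jm_right, PiLp.add_apply]

theorem pf_sp2 : T_SP2 := by
  intro a b u w hu hw
  have h1 : ∀ n : ℕ, ‖jo (0 : EE n) 1‖ = 1 := by
    intro n
    have h2 := jo_norm_sq (0 : EE n) 1
    rw [norm_zero] at h2
    nlinarith [norm_nonneg (jo (0 : EE n) 1)]
  obtain ⟨Q₁, hQ₁⟩ := exists_isom (jo (0 : EE a) 1) u (h1 a) hu
  obtain ⟨Q₂, hQ₂⟩ := exists_isom (jo (0 : EE b) 1) w (h1 b) hw
  -- the map
  set Ψ : EE (a + b) × (ℝ × ℝ) ≃ᵐ (EE a × ℝ) × (EE b × ℝ) :=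
    ((jmE a b).symm.prodCongr (MeasurableEquiv.refl (ℝ × ℝ))).trans
      (pmE (EE a) (EE b) ℝ ℝ) with hΨ
  set Θ : (EE a × ℝ) × (EE b × ℝ) ≃ᵐ EE ((a + 1) + (b + 1)) :=
    ((joE a).prodCongr (joE b)).trans
      ((Q₁.toHomeomorph.toMeasurableEquiv.prodCongr Q₂.toHomeomorph.toMeasurableEquiv).trans
        (jmE (a + 1) (b + 1))) with hΘ
  have e0 : ∀ (y : EE (a + b)) (r : ℝ × ℝ), (Ψ.trans Θ) (y, r) =
      jm (a + 1) (b + 1) (Q₁ (jo (p1 a b y) r.1)) (Q₂ (jo (p2 a b y) r.2)) := fun y r => rfl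
  have mj : ∀ a b : ℕ, MeasurePreserving (jmE a b) volume volume := fun a b => mp_jm a b
  have mo : ∀ n : ℕ, MeasurePreserving (joE n) volume volume := fun n => mp_jo n
  have m1 : MeasurePreserving (Prod.map (jmE a b).symm (id : ℝ × ℝ → ℝ × ℝ))
      (volume.prod volume) (volume.prod volume) :=
    (mj a b).symm.prod (MeasurePreserving.id volume)
  have mΨ : MeasurePreserving Ψ volume volume := (mp_pmE (EE a) (EE b) ℝ ℝ).comp m1
  have m2 : MeasurePreserving (Prod.map (joE a) (joE b))
      (volume.prod volume) (volume.prod volume) := (mo a).prod (mo b)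
  have m3 : MeasurePreserving (Prod.map Q₁ Q₂)
      ((volume : Measure (EE (a + 1))).prod (volume : Measure (EE (b + 1))))
      ((volume : Measure (EE (a + 1))).prod (volume : Measure (EE (b + 1)))) :=
    Q₁.measurePreserving.prod Q₂.measurePreserving
  have mΘ : MeasurePreserving Θ volume volume := (mj (a + 1) (b + 1)).comp (m3.comp m2)
  refine ⟨Ψ.trans Θ, mΘ.comp mΨ, ?_, ?_, ?_, ?_⟩
  · have e1 : ⇑(Ψ.trans Θ) = fun q : EE (a + b) × (ℝ × ℝ) =>
        jm (a + 1) (b + 1) (Q₁ (jo (p1 a b q.1) q.2.1)) (Q₂ (jo (p2 a b q.1) q.2.2)) :=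
      funext fun q => e0 q.1 q.2
    rw [e1]
    have c1 : Continuous fun q : EE (a + b) × (ℝ × ℝ) => jo (p1 a b q.1) q.2.1 :=
      continuous_jo.comp (((cont_p1 a b).comp continuous_fst).prodMk
        (continuous_fst.comp continuous_snd))
    have c2 : Continuous fun q : EE (a + b) × (ℝ × ℝ) => jo (p2 a b q.1) q.2.2 :=
      continuous_jo.comp (((cont_p2 a b).comp continuous_fst).prodMk
        (continuous_snd.comp continuous_snd))
    exact (cont_jm (a + 1) (b + 1)).comp ((Q₁.continuous.comp c1).prodMk (Q₂.continuous.comp c2))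
  · intro y r
    rw [e0, e0, ← jm_add]
    have h2 : Q₁ (jo (p1 a b y) r.1) = Q₁ (jo (p1 a b y) (0 : ℝ × ℝ).1) + r.1 • u := by
      rw [jo_add (p1 a b y) r.1, map_add, map_smul, hQ₁]
      rfl
    have h3 : Q₂ (jo (p2 a b y) r.2) = Q₂ (jo (p2 a b y) (0 : ℝ × ℝ).2) + r.2 • w := by
      rw [jo_add (p2 a b y) r.2, map_add, map_smul, hQ₂]
      rfl
    rw [h2, h3]
  · intro y r
    rw [e0, p1_jm, p2_jm]
    constructor
    · rw [← hQ₁, LinearIsometryEquiv.inner_map_map, jo_inner, inner_zero_right]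
      ring
    · rw [← hQ₂, LinearIsometryEquiv.inner_map_map, jo_inner, inner_zero_right]
      ring
  · intro y y' r r'
    rw [e0, e0, inner_p, p1_jm, p1_jm, p2_jm, p2_jm, LinearIsometryEquiv.inner_map_map,
      LinearIsometryEquiv.inner_map_map, jo_inner, jo_inner, inner_p a b y y']
    ring

end Pool.Agent.H85.TN
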